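import Pool.Agent.H60.KS2.Defs
import Pool.Agent.H55.K2.CSW

/-!
# Rows from a translation

A law in the plane, smoothed at the scale `2 ^ κ`, which is nearly invariant under a translation of
the first coordinate, has full rows of the first coordinate, given the second.
-/

set_option autoImplicit false

namespace Pool.KS2

open Finset Real
open Pool.Agent.H49.Ent Pool.Agent.H32.Dense Pool.STK Pool.KAF Pool.OC Pool.OC.RS Pool.KAL Pool.KX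
open Pool.KAL.TI

/-- **Rows.** -/
theorem ful_thm : FulStmt := by
  refine ⟨5 + 3 * Real.log 3, by positivity, ?_⟩
  intro Ω _ q N S κ kb K x e hq h1 h2 he he2 hT
  set X : Ω → Fin 2 → ℤ := fun ω => ![N ω, S ω] with hX
  have hN : 0 < 2 ^ κ := by positivity
  have hsm := PRM.isLaw_smp (d := 2) hN hq
  -- the first coordinate, with the second one as side information
  have hT' : TIV (smp 2 (2 ^ κ) q) (fun w => smX (N := 2 ^ κ) X w 0)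
      (fun w => (smX (N := 2 ^ κ) X w 1 / ((2 ^ κ : ℕ) : ℤ), ())) x e := by
    intro E
    have h3 := hT {z | (z.1 0, (z.1 1 / ((2 ^ κ : ℕ) : ℤ), ())) ∈ E}
    have e1 : Pr (smp 2 (2 ^ κ) q) {w | (smX (N := 2 ^ κ) X w, ()) ∈
        {z : (Fin 2 → ℤ) × Unit | (z.1 0, (z.1 1 / ((2 ^ κ : ℕ) : ℤ), ())) ∈ E}} =
        Pr (smp 2 (2 ^ κ) q) {w | (smX (N := 2 ^ κ) X w 0,
          (smX (N := 2 ^ κ) X w 1 / ((2 ^ κ : ℕ) : ℤ), ())) ∈ E} := Pr_congr _ fun w => Iff.rfl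
    have e2 : Pr (smp 2 (2 ^ κ) q) {w | (smX (N := 2 ^ κ) X w + ![x, 0], ()) ∈
        {z : (Fin 2 → ℤ) × Unit | (z.1 0, (z.1 1 / ((2 ^ κ : ℕ) : ℤ), ())) ∈ E}} =
        Pr (smp 2 (2 ^ κ) q) {w | (smX (N := 2 ^ κ) X w 0 + x,
          (smX (N := 2 ^ κ) X w 1 / ((2 ^ κ : ℕ) : ℤ), ())) ∈ E} := Pr_congr _ fun w => by
      have a0 : (smX (N := 2 ^ κ) X w + ![x, 0]) 0 = smX (N := 2 ^ κ) X w 0 + x := by simp
      have a1 : (smX (N := 2 ^ κ) X w + ![x, 0]) 1 = smX (N := 2 ^ κ) X w 1 := by simp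
      show ((smX (N := 2 ^ κ) X w + ![x, 0]) 0,
        ((smX (N := 2 ^ κ) X w + ![x, 0]) 1 / ((2 ^ κ : ℕ) : ℤ), ())) ∈ E ↔ _
      rw [a0, a1]
      exact Iff.rfl
    rwa [e1, e2] at h3
  have h4 := full_of_tiv hsm (fun w => smX (N := 2 ^ κ) X w 0)
    (fun w => (smX (N := 2 ^ κ) X w 1 / ((2 ^ κ : ℕ) : ℤ), ())) κ (κ + K) kb x e
    (Nat.le_add_right _ _) h1 h2 he he2 hT'
  have hsmX : ∀ (i : Fin 2), ∀ w : Ω × (Fin 2 → Fin (2 ^ κ)),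
      X w.1 i ≤ smX (N := 2 ^ κ) X w i ∧ smX (N := 2 ^ κ) X w i < X w.1 i + ((2 ^ κ : ℕ) : ℕ) := by
    intro i w
    simp only [smX]
    have h2 : ((w.2 i : ℕ) : ℤ) < ((2 ^ κ : ℕ) : ℤ) := by
      have := (w.2 i).2
      exact_mod_cast this
    have h3 : (0 : ℤ) ≤ ((w.2 i : ℕ) : ℤ) := by positivity
    constructor <;> linarith
  have h5 := CH_near2 hsm (fun w => X w.1 0) (fun w => smX (N := 2 ^ κ) X w 0)
    (fun w => X w.1 1) (fun w => smX (N := 2 ^ κ) X w 1) (fun _ => ()) (2 ^ κ) (2 ^ (κ + K)) (2 ^ κ)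
    (by positivity) (Nat.pow_le_pow_right (by norm_num) (Nat.le_add_right _ _)) (by positivity)
    (hsmX 0) (hsmX 1)
  have h6 : CH (smp 2 (2 ^ κ) q) (fun w => X w.1 0 / ((2 ^ κ : ℕ) : ℤ))
      (fun w => (X w.1 0 / ((2 ^ (κ + K) : ℕ) : ℤ), (X w.1 1 / ((2 ^ κ : ℕ) : ℤ), ()))) =
      CH q (fun ω => X ω 0 / ((2 ^ κ : ℕ) : ℤ))
        (fun ω => (X ω 0 / ((2 ^ (κ + K) : ℕ) : ℤ), (X ω 1 / ((2 ^ κ : ℕ) : ℤ), ()))) :=
    PRM.CH_smp (d := 2) hN q (fun ω => X ω 0 / ((2 ^ κ : ℕ) : ℤ))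
      (fun ω => (X ω 0 / ((2 ^ (κ + K) : ℕ) : ℤ), (X ω 1 / ((2 ^ κ : ℕ) : ℤ), ())))
  have h7 : CH q (fun ω => X ω 0 / ((2 ^ κ : ℕ) : ℤ))
        (fun ω => (X ω 0 / ((2 ^ (κ + K) : ℕ) : ℤ), (X ω 1 / ((2 ^ κ : ℕ) : ℤ), ()))) =
      CH q (fun ω => N ω / ((2 ^ κ : ℕ) : ℤ))
        (fun ω => (N ω / ((2 ^ (κ + K) : ℕ) : ℤ), S ω / ((2 ^ κ : ℕ) : ℤ))) := by
    refine CH_congr hq.nonneg ?_ ?_ ?_ ?_
    · intro ω ω' _ _ h
      exact (Prod.ext_iff.mp h).1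
    · intro ω ω' _ _ h
      exact (Prod.ext_iff.mp h).1
    · intro ω ω' _ _ h
      obtain ⟨h10, h11⟩ := Prod.ext_iff.mp h
      exact Prod.ext h10 (Prod.ext_iff.mp h11).1
    · intro ω ω' _ _ h
      obtain ⟨h10, h11⟩ := Prod.ext_iff.mp h
      exact Prod.ext h10 (Prod.ext h11 rfl)
  have h8 : (((κ + K : ℕ) : ℝ) - κ) = K := by
    push_cast
    ring
  rw [h8] at h4
  rw [← h7, ← h6]
  linarith

end Pool.KS2
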