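import Pool.Agent.H60.KS2.Stm2

/-!
# The shift of the grid: proof
-/

set_option autoImplicit false

namespace Pool.KS2

open Finset Real
open Pool.Agent.H49.Ent Pool.Agent.H32.Dense Pool.STK Pool.KAF Pool.OC Pool.OC.RS Pool.KAL Pool.KX

/-- Near numbers in different cells are near the boundary. -/
theorem near_bdry {n n' : ℤ} {D L : ℕ} (hD : 0 < D) (h : |n' - n| ≤ L)
    (hne : n / (D : ℤ) ≠ n' / (D : ℤ)) : n % (D : ℤ) < L ∨ (D : ℤ) - L ≤ n % (D : ℤ) := by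
  by_contra hc
  push Not at hc
  obtain ⟨h1, h2⟩ := hc
  have hD' : (0 : ℤ) < D := by exact_mod_cast hD
  have h3 := abs_le.mp h
  apply hne
  have e1 := Int.emod_add_mul_ediv n (D : ℤ)
  have h4 : n' = (n % (D : ℤ) + (n' - n)) + (D : ℤ) * (n / (D : ℤ)) := by linarith
  have h5 : n' / (D : ℤ) = (n % (D : ℤ) + (n' - n)) / (D : ℤ) + n / (D : ℤ) := by
    conv_lhs => rw [h4]
    rw [Int.add_mul_ediv_left _ _ hD'.ne']
  have h6 : (n % (D : ℤ) + (n' - n)) / (D : ℤ) = 0 :=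
    Int.ediv_eq_zero_of_lt (by linarith) (by linarith)
  rw [h5, h6, zero_add]

open Classical in
/-- **Shift.** -/
theorem shift_thm : ShiftStmt := by
  intro d s K hok hK hs
  set I := (Finset.range d.X).filter (fun ℓ => 6 * K ≤ ℓ ∧ ℓ + 7 * K ≤ d.X) with hI
  set f : ℤ → ℕ → Fin 3 → ℝ := fun u ℓ j =>
    EE d.P (fun ω => (d.L j ω, (tl d.th ℓ ω, d.a ω)))
        (crs d.G (fun ω => (rr d.X (ℓ - 6 * K) (fun ω => d.N 0 ω + u) ω,
          rr d.X (ℓ - 6 * K) (fun ω => d.N 1 ω + u) ω))) with hf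
  have hp := hok.law
  -- one level and one line
  have key : ∀ ℓ ∈ I, ∀ j : Fin 3, ∑ u ∈ range (2 ^ d.X), f ((u : ℕ) : ℤ) ℓ j ≤
      2 ^ d.X * (16 / 2 ^ (6 * K)) := by
    intro ℓ hℓ j
    obtain ⟨_, h6, h7⟩ := Finset.mem_filter.mp hℓ
    set Ξ : ℕ := d.X - (ℓ - 6 * K) with hΞ
    have hΞX : Ξ ≤ d.X := Nat.sub_le _ _
    set Lc : ℕ := 2 ^ (d.X - ℓ + 2) with hLc
    have hratio : (2 : ℝ) * Lc / 2 ^ Ξ = 8 / 2 ^ (6 * K) := by
      have e1 : Ξ = (d.X - ℓ) + 6 * K := by omega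
      rw [e1, hLc, pow_add (2 : ℝ) (d.X - ℓ) (6 * K)]
      push_cast
      rw [pow_add]
      field_simp
      ring
    -- one pair
    have pair : ∀ ω, 0 < d.P ω → ∀ v,
        0 < cond d.P (fun ω => (d.L j ω, (tl d.th ℓ ω, d.a ω)))
          (d.L j ω, (tl d.th ℓ ω, d.a ω)) v →
        ∑ u ∈ range (2 ^ d.X), crs d.G
          (fun ω => (rr d.X (ℓ - 6 * K) (fun ω => d.N 0 ω + ((u : ℕ) : ℤ)) ω,
            rr d.X (ℓ - 6 * K) (fun ω => d.N 1 ω + ((u : ℕ) : ℤ)) ω)) ω v ≤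
          2 ^ d.X * (16 / 2 ^ (6 * K)) := by
      intro ω hω v hv
      obtain ⟨hv0, hv1⟩ := (cond_pos_iff hp.nonneg _ _ v).mp hv
      have hL : d.L j v = d.L j ω := (Prod.ext_iff.mp hv1).1
      have htl : tl d.th ℓ v = tl d.th ℓ ω := (Prod.ext_iff.mp (Prod.ext_iff.mp hv1).2).1
      have hav : d.a v = d.a ω := (Prod.ext_iff.mp (Prod.ext_iff.mp hv1).2).2
      by_cases hG : ω ∈ d.G
      · have hnear : ∀ k : Fin 2, |d.N k v - d.N k ω| ≤ ((Lc : ℕ) : ℤ) := by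
          intro k
          have h1 := hok.hv ω v hω hv0 hG j hL.symm hav.symm k
          have h2 := tl_near htl.symm
          have h3 : |vel j k| ≤ 1 := by
            fin_cases j <;> fin_cases k <;> simp [vel]
          have hX : (0 : ℝ) < 2 ^ d.X := by positivity
          have h4 : (2 : ℝ) ^ d.X * |d.th v - d.th ω| ≤ 2 ^ (d.X - ℓ) := by
            have e1 : (2 : ℝ) ^ d.X = 2 ^ (d.X - ℓ) * 2 ^ ℓ := by
              rw [← pow_add]
              congr 1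
              omega
            rw [e1, mul_assoc]
            have h5 : (2 : ℝ) ^ ℓ * |d.th v - d.th ω| ≤ 1 := by
              calc (2 : ℝ) ^ ℓ * |d.th v - d.th ω| ≤ 2 ^ ℓ * (1 / 2 ^ ℓ) :=
                    mul_le_mul_of_nonneg_left h2 (by positivity)
                _ = 1 := by field_simp
            calc (2 : ℝ) ^ (d.X - ℓ) * (2 ^ ℓ * |d.th v - d.th ω|) ≤ 2 ^ (d.X - ℓ) * 1 :=
                  mul_le_mul_of_nonneg_left h5 (by positivity)
              _ = 2 ^ (d.X - ℓ) := mul_one _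
          have h5 : |(2 : ℝ) ^ d.X * ((d.th v - d.th ω) * vel j k)| ≤ 2 ^ (d.X - ℓ) := by
            rw [abs_mul, abs_mul, abs_of_pos hX, ← mul_assoc]
            calc (2 : ℝ) ^ d.X * |d.th v - d.th ω| * |vel j k| ≤
                  2 ^ d.X * |d.th v - d.th ω| * 1 :=
                  mul_le_mul_of_nonneg_left h3 (by positivity)
              _ ≤ 2 ^ (d.X - ℓ) := by rw [mul_one]; exact h4
          have h6' : (2 : ℝ) ^ d.X * |d.th v - d.th ω| / 2 ^ s ≤ 2 ^ (d.X - ℓ) := by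
            rw [div_le_iff₀ (by positivity)]
            have h8 : (1 : ℝ) ≤ 2 ^ s := one_le_pow₀ (by norm_num)
            nlinarith [show (0 : ℝ) < 2 ^ (d.X - ℓ) by positivity]
          have h9 : (4 : ℝ) ≤ 2 * 2 ^ (d.X - ℓ) := by
            have h10 : (2 : ℝ) ^ 1 ≤ 2 ^ (d.X - ℓ) :=
              pow_le_pow_right₀ (by norm_num) (by omega)
            linarith
          have h10 : |(d.N k v : ℝ) - d.N k ω| ≤ 4 * 2 ^ (d.X - ℓ) := by
            have h11 := abs_sub_abs_le_abs_sub ((d.N k v : ℝ) - d.N k ω)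
              (2 ^ d.X * ((d.th v - d.th ω) * vel j k))
            linarith
          have h11 : ((|d.N k v - d.N k ω| : ℤ) : ℝ) ≤ ((Lc : ℕ) : ℝ) := by
            push_cast
            rw [hLc]
            push_cast
            rw [pow_add]
            linarith
          exact_mod_cast h11
        have h1 : ∀ u : ℕ, crs d.G
            (fun ω => (rr d.X (ℓ - 6 * K) (fun ω => d.N 0 ω + ((u : ℕ) : ℤ)) ω,
              rr d.X (ℓ - 6 * K) (fun ω => d.N 1 ω + ((u : ℕ) : ℤ)) ω)) ω v ≤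
            (if (d.N 0 ω + u) % ((2 ^ Ξ : ℕ) : ℤ) < Lc ∨
              ((2 ^ Ξ : ℕ) : ℤ) - Lc ≤ (d.N 0 ω + u) % ((2 ^ Ξ : ℕ) : ℤ) then (1 : ℝ) else 0) +
            (if (d.N 1 ω + u) % ((2 ^ Ξ : ℕ) : ℤ) < Lc ∨
              ((2 ^ Ξ : ℕ) : ℤ) - Lc ≤ (d.N 1 ω + u) % ((2 ^ Ξ : ℕ) : ℤ) then (1 : ℝ) else 0) := by
          intro u
          have n0 : ∀ k : Fin 2, (0 : ℝ) ≤ (if (d.N k ω + u) % ((2 ^ Ξ : ℕ) : ℤ) < Lc ∨
              ((2 ^ Ξ : ℕ) : ℤ) - Lc ≤ (d.N k ω + u) % ((2 ^ Ξ : ℕ) : ℤ) then (1 : ℝ) else 0) := by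
            intro k
            split_ifs <;> norm_num
          unfold crs
          by_cases hc : ω ∈ d.G ∧
              (rr d.X (ℓ - 6 * K) (fun ω => d.N 0 ω + ((u : ℕ) : ℤ)) ω,
                rr d.X (ℓ - 6 * K) (fun ω => d.N 1 ω + ((u : ℕ) : ℤ)) ω) ≠
              (rr d.X (ℓ - 6 * K) (fun ω => d.N 0 ω + ((u : ℕ) : ℤ)) v,
                rr d.X (ℓ - 6 * K) (fun ω => d.N 1 ω + ((u : ℕ) : ℤ)) v)
          · rw [if_pos hc]
            have hpair : ∀ k : Fin 2, rr d.X (ℓ - 6 * K) (fun ω => d.N k ω + ((u : ℕ) : ℤ)) ω ≠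
                rr d.X (ℓ - 6 * K) (fun ω => d.N k ω + ((u : ℕ) : ℤ)) v →
                (1 : ℝ) ≤ (if (d.N k ω + u) % ((2 ^ Ξ : ℕ) : ℤ) < Lc ∨
              ((2 ^ Ξ : ℕ) : ℤ) - Lc ≤ (d.N k ω + u) % ((2 ^ Ξ : ℕ) : ℤ) then (1 : ℝ) else 0) := by
              intro k hk
              have h2 := near_bdry (n := d.N k ω + u) (n' := d.N k v + u) (D := 2 ^ Ξ) (L := Lc)
                (by positivity) (by
                  have e1 : d.N k v + (u : ℤ) - (d.N k ω + u) = d.N k v - d.N k ω := by ring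
                  rw [e1]
                  exact hnear k) hk
              rw [if_pos h2]
            by_cases hk0 : rr d.X (ℓ - 6 * K) (fun ω => d.N 0 ω + ((u : ℕ) : ℤ)) ω ≠
                rr d.X (ℓ - 6 * K) (fun ω => d.N 0 ω + ((u : ℕ) : ℤ)) v
            · linarith [hpair 0 hk0, n0 1]
            · have hk1 : rr d.X (ℓ - 6 * K) (fun ω => d.N 1 ω + ((u : ℕ) : ℤ)) ω ≠
                rr d.X (ℓ - 6 * K) (fun ω => d.N 1 ω + ((u : ℕ) : ℤ)) v := by
                intro hk1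
                exact hc.2 (Prod.ext (not_ne_iff.mp hk0) hk1)
              linarith [hpair 1 hk1, n0 0]
          · rw [if_neg hc]
            linarith [n0 0, n0 1]
        refine (Finset.sum_le_sum fun u _ => h1 u).trans ?_
        rw [Finset.sum_add_distrib]
        have h2 := near_count d.X Ξ Lc hΞX (d.N 0 ω)
        have h3 := near_count d.X Ξ Lc hΞX (d.N 1 ω)
        rw [hratio] at h2 h3
        have e1 : (2 : ℝ) ^ d.X * (16 / 2 ^ (6 * K)) =
            2 ^ d.X * (8 / 2 ^ (6 * K)) + 2 ^ d.X * (8 / 2 ^ (6 * K)) := by ring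
        rw [e1]
        exact add_le_add h2 h3
      · have h1 : ∀ u : ℕ, crs d.G
            (fun ω => (rr d.X (ℓ - 6 * K) (fun ω => d.N 0 ω + ((u : ℕ) : ℤ)) ω,
              rr d.X (ℓ - 6 * K) (fun ω => d.N 1 ω + ((u : ℕ) : ℤ)) ω)) ω v = 0 := by
          intro u
          unfold crs
          rw [if_neg (fun h => hG h.1)]
        rw [Finset.sum_congr rfl fun u _ => h1 u, Finset.sum_const_zero]
        positivity
    -- the mean
    have h1 : ∑ u ∈ range (2 ^ d.X), f ((u : ℕ) : ℤ) ℓ j =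
        ∑ ω, d.P ω * ∑ v, cond d.P (fun ω => (d.L j ω, (tl d.th ℓ ω, d.a ω)))
          (d.L j ω, (tl d.th ℓ ω, d.a ω)) v * ∑ u ∈ range (2 ^ d.X), crs d.G
          (fun ω => (rr d.X (ℓ - 6 * K) (fun ω => d.N 0 ω + ((u : ℕ) : ℤ)) ω,
            rr d.X (ℓ - 6 * K) (fun ω => d.N 1 ω + ((u : ℕ) : ℤ)) ω)) ω v := by
      simp only [hf]
      unfold EE
      rw [Finset.sum_comm]
      refine Finset.sum_congr rfl fun ω _ => ?_
      rw [← Finset.mul_sum, Finset.sum_comm]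
      congr 1
      refine Finset.sum_congr rfl fun v _ => ?_
      rw [← Finset.mul_sum]
    rw [h1]
    have hc0 : (0 : ℝ) ≤ 2 ^ d.X * (16 / 2 ^ (6 * K)) := by positivity
    have h2 : ∀ ω, d.P ω * ∑ v, cond d.P (fun ω => (d.L j ω, (tl d.th ℓ ω, d.a ω)))
          (d.L j ω, (tl d.th ℓ ω, d.a ω)) v * ∑ u ∈ range (2 ^ d.X), crs d.G
          (fun ω => (rr d.X (ℓ - 6 * K) (fun ω => d.N 0 ω + ((u : ℕ) : ℤ)) ω,
            rr d.X (ℓ - 6 * K) (fun ω => d.N 1 ω + ((u : ℕ) : ℤ)) ω)) ω v ≤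
        d.P ω * (2 ^ d.X * (16 / 2 ^ (6 * K))) := by
      intro ω
      rcases (hp.nonneg ω).lt_or_eq with h0 | h0
      · refine mul_le_mul_of_nonneg_left ?_ h0.le
        have h3 : ∀ v, cond d.P (fun ω => (d.L j ω, (tl d.th ℓ ω, d.a ω)))
          (d.L j ω, (tl d.th ℓ ω, d.a ω)) v * ∑ u ∈ range (2 ^ d.X), crs d.G
          (fun ω => (rr d.X (ℓ - 6 * K) (fun ω => d.N 0 ω + ((u : ℕ) : ℤ)) ω,
            rr d.X (ℓ - 6 * K) (fun ω => d.N 1 ω + ((u : ℕ) : ℤ)) ω)) ω v ≤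
            cond d.P (fun ω => (d.L j ω, (tl d.th ℓ ω, d.a ω)))
          (d.L j ω, (tl d.th ℓ ω, d.a ω)) v * (2 ^ d.X * (16 / 2 ^ (6 * K))) := by
          intro v
          rcases (cond_nonneg hp.nonneg (fun ω => (d.L j ω, (tl d.th ℓ ω, d.a ω)))
            (d.L j ω, (tl d.th ℓ ω, d.a ω)) v).lt_or_eq with hv | hv
          · exact mul_le_mul_of_nonneg_left (pair ω h0 v hv) hv.le
          · rw [← hv, zero_mul, zero_mul]
        refine (Finset.sum_le_sum fun v _ => h3 v).trans ?_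
        rw [← Finset.sum_mul, sum_cond d.P (fun ω => (d.L j ω, (tl d.th ℓ ω, d.a ω)))
          (law_pos hp.nonneg (fun ω => (d.L j ω, (tl d.th ℓ ω, d.a ω))) h0).ne', one_mul]
      · rw [← h0, zero_mul, zero_mul]
    refine (Finset.sum_le_sum fun ω _ => h2 ω).trans ?_
    rw [← Finset.sum_mul, hp.sum_one, one_mul]
  -- the pigeonhole
  have htot : ∑ u ∈ range (2 ^ d.X), ∑ ℓ ∈ I, ∑ j : Fin 3, f ((u : ℕ) : ℤ) ℓ j ≤
      ∑ _u ∈ range (2 ^ d.X), 64 / 2 ^ (6 * K) * (d.X : ℝ) := by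
    rw [Finset.sum_comm]
    have h1 : ∀ ℓ ∈ I, ∑ u ∈ range (2 ^ d.X), ∑ j : Fin 3, f ((u : ℕ) : ℤ) ℓ j ≤
        2 ^ d.X * (64 / 2 ^ (6 * K)) := by
      intro ℓ hℓ
      rw [Finset.sum_comm]
      refine (Finset.sum_le_sum fun j _ => key ℓ hℓ j).trans ?_
      rw [Finset.sum_const, Finset.card_univ, Fintype.card_fin, nsmul_eq_mul]
      have h2 : (0 : ℝ) ≤ 2 ^ d.X / 2 ^ (6 * K) := by positivity
      have e1 : ((3 : ℕ) : ℝ) * (2 ^ d.X * (16 / 2 ^ (6 * K))) = 48 * (2 ^ d.X / 2 ^ (6 * K)) := by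
        push_cast
        ring
      have e2 : (2 : ℝ) ^ d.X * (64 / 2 ^ (6 * K)) = 64 * (2 ^ d.X / 2 ^ (6 * K)) := by ring
      rw [e1, e2]
      linarith
    refine (Finset.sum_le_sum h1).trans ?_
    rw [Finset.sum_const, Finset.sum_const, Finset.card_range, nsmul_eq_mul, nsmul_eq_mul]
    have h3 : (I.card : ℝ) ≤ d.X := by
      have h4 : I.card ≤ (range d.X).card := Finset.card_filter_le _ _
      rw [Finset.card_range] at h4
      exact_mod_cast h4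
    have h4 : (0 : ℝ) ≤ 2 ^ d.X * (64 / 2 ^ (6 * K)) := by positivity
    push_cast
    calc (I.card : ℝ) * (2 ^ d.X * (64 / 2 ^ (6 * K))) ≤
          d.X * (2 ^ d.X * (64 / 2 ^ (6 * K))) := mul_le_mul_of_nonneg_right h3 h4
      _ = 2 ^ d.X * (64 / 2 ^ (6 * K) * d.X) := by ring
  obtain ⟨u, _, hu⟩ := Finset.exists_le_of_sum_le
    (Finset.nonempty_range_iff.mpr (by positivity : (2 : ℕ) ^ d.X ≠ 0)) htot
  exact ⟨((u : ℕ) : ℤ), hu⟩

end Pool.KS2
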